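import Pool.Agent.Results.MP_b2749c_lc.Undecidable
import Pool.Agent.Y669.TA.SysU

/-! Level-transitivity for one fixed recursion with one exponent. Stronger form of
`Undecidable`. -/

set_option autoImplicit false

namespace Pool.Agent.Results.MP_b2749c_lc.OneExponent

open Pool.Agent.Helper322.LT

/-- A recursion with one exponent: as a recursion, but every entry of a section word carries a
flag, which tells whether the entry is taken with the exponent `N` (flag `true`) or with the
exponent `1` (flag `false`); `N` is a natural number which is still to be chosen. -/
structure ExpRec (X S : Type) where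
  /-- the action of a symbol on the first letter -/
  perm : S → Equiv.Perm X
  /-- the section of a symbol at a letter -/
  word : S → X → List ((S × Bool) × Bool)

/-- The recursion obtained by choosing the exponent `N`. -/
def ExpRec.withExp {X S : Type} (T : ExpRec X S) (N : ℕ) : Rec X S where
  perm := T.perm
  word := fun s x => (T.word s x).flatMap fun t => List.replicate (if t.2 then N else 1) t.1

theorem flatMap_false {S : Type} (l : List (S × Bool)) (N : ℕ) :
    (l.map fun t => (t, false)).flatMap
      (fun t => List.replicate (if t.2 then N else 1) t.1) = l := by
  induction l with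
  | nil => rfl
  | cons a l ih =>
    rw [List.map_cons, List.flatMap_cons, ih]
    rfl

/-- the section of the marker, with one exponent -/
def mtemp (K : ℕ) [NeZero K] : List ((Option (Tl K) × Bool) × Bool) :=
  [((none, false), false), ((some (.A true), false), true),
    ((some .cs, false), false), ((some .hash, false), false), ((some .mon, false), false),
    ((some .hash, true), false), ((some .cs, true), false), ((some (.A true), true), true),
    ((none, false), false), ((some (.A true), false), true),
    ((some .cs, false), false), ((some .hash, false), false), ((some .mon, true), false),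
    ((some .hash, true), false), ((some .cs, true), false), ((some (.A true), true), true)]

theorem mtemp_at {K : ℕ} [NeZero K] (N : ℕ) :
    ((mtemp K).flatMap fun t => List.replicate (if t.2 then N else 1) t.1) = mword N := by
  rw [mword_eq]
  simp [mtemp, List.flatMap_cons]

open Classical in
/-- the sections with one exponent, numbered -/
noncomputable def tw {K : ℕ} [NeZero K] (P : Fin K → Fin K → List (Fin K))
    (i : Fin (Nat.card (Option (Tl K)))) (x : Fin (Nat.card (Lt K × ZMod 3))) :
    List ((Fin (Nat.card (Option (Tl K))) × Bool) × Bool) :=
  match (eS K).symm i with
  | none => if ((eX K).symm x).1 = Lt.z then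
      (mtemp K).map (fun t => ((eS K t.1.1, t.1.2), t.2)) else []
  | some _ => ((RF P 0).word i x).map fun t => (t, false)

theorem family {K : ℕ} [NeZero K] (P : Fin K → Fin K → List (Fin K)) :
    ∃ T : ExpRec (Fin (Nat.card (Lt K × ZMod 3))) (Fin (Nat.card (Option (Tl K)))),
      ∀ N, T.withExp N = RF P N := by
  classical
  refine ⟨⟨(RF P 0).perm, tw P⟩, fun N => ?_⟩
  have hw : ∀ i x, (RF P N).word i x = (tw P i x).flatMap
      fun t => List.replicate (if t.2 then N else 1) t.1 := by
    intro i x
    unfold tw
    rcases hi : (eS K).symm i with _ | t
    · by_cases hx : ((eX K).symm x).1 = .z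
      · simp only [hx, if_true]
        have e : (RF P N).word i x = (mword N).map fun t => (eS K t.1, t.2) := by
          unfold RF Rec.map
          simp only [hi]
          unfold RX
          simp only [hx, if_true]
        rw [e, ← mtemp_at, List.map_flatMap, List.flatMap_map]
        congr 1
        funext t
        simp
      · simp only [hx, if_false]
        have e : (RF P N).word i x = [] := by
          unfold RF Rec.map
          simp only [hi]
          unfold RX
          simp only [hx, if_false]
          rfl
        rw [e]
        rfl
    · simp only
      rw [flatMap_false]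
      unfold RF Rec.map
      simp only [hi]
      rfl
  have : (RF P N) = ⟨(RF P N).perm, (RF P N).word⟩ := rfl
  rw [this]
  unfold ExpRec.withExp
  simp only
  congr 1
  funext i x
  exact (hw i x).symm

/-- There are an alphabet size `d`, a number `k` of generators and one fixed recursion `T` with one
exponent such that
(1) for every recursively enumerable set `W` there is a computable function `f` such that the group
given by the recursion `T` with the exponent `f n` is level-transitive if and only if `n` is not in
`W`;
(2) the set of all natural numbers `N` such that `T` with the exponent `N` gives a level-transitive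
group is not recursively enumerable, in particular not decidable.
(3) The earlier result: no algorithm decides level-transitivity, also for fixed `d` and `k`. -/
theorem result :
    (∃ (d k : ℕ) (T : ExpRec (Fin d) (Fin k)), 2 ≤ d ∧
      (∀ W : ℕ → Prop, REPred W → ∃ f : ℕ → ℕ, Computable f ∧
        ∀ n, (T.withExp (f n)).LevelTransitive ↔ ¬ W n) ∧
      ¬ REPred fun N => (T.withExp N).LevelTransitive) ∧
    (¬ ∃ f : Data →. Bool, Partrec f ∧
      ∀ (d k : ℕ) (R : Rec (Fin d) (Fin k)), 2 ≤ d → CorrectOn f R) := by
  classical
  refine ⟨?_, Pool.Agent.Results.MP_b2749c_lc.Undecidable.result.1⟩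
  obtain ⟨K, hK, P, t, hc, hu⟩ := universal
  obtain ⟨T, hT⟩ := family P
  have key : ∀ W : ℕ → Prop, REPred W → ∃ f : ℕ → ℕ, Computable f ∧
      ∀ n, (T.withExp (f n)).LevelTransitive ↔ ¬ W n := by
    intro W hW
    obtain ⟨g, hg, h⟩ := Pool.Agent.Y669.TA.SysU.universal hW
    refine ⟨fun n => num (t (g n)), hc.comp hg, fun n => ?_⟩
    rw [hT, RF_transitive_iff, hu, h n]
    rfl
  refine ⟨_, _, T, two_le_card K, key, fun h => ?_⟩
  obtain ⟨W, hre, hco⟩ := Pool.Agent.Y669.TA.SysU.exists_re_not_co
  obtain ⟨f, hf, h1⟩ := key W hre
  apply hco
  have h2 : REPred fun n => (T.withExp (f n)).LevelTransitive := Partrec.comp h hf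
  exact h2.of_eq fun n => h1 n

end Pool.Agent.Results.MP_b2749c_lc.OneExponent
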